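import Mathlib

/-!
# Random bisections of the lines of an affine plane

For a large prime `p` one can choose a subset of each non-vertical line of the affine plane over the
field with `p` elements, of size `(p - 1) / 2`, such that every set `S` of points which meets every
line in at most `D` points meets some line only in points of the chosen subset.
-/

set_option autoImplicit false

namespace Pool.Agent.K3h69.BT

open Finset

theorem choose_le (t : ℕ) : ∀ p m : ℕ, p + 3 * t ≤ 4 * m → m ≤ p →
    p.choose m ≤ 4 ^ t * (p - t).choose (m - t) := by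
  induction t with
  | zero => simp
  | succ t ih =>
    intro p m h hm
    obtain ⟨m', rfl⟩ : ∃ m', m = m' + 1 := ⟨m - 1, by omega⟩
    obtain ⟨p', rfl⟩ : ∃ p', p = p' + 1 := ⟨p - 1, by omega⟩
    have h1 : (p' + 1).choose (m' + 1) ≤ 4 * p'.choose m' := by
      have h3 := Nat.add_one_mul_choose_eq p' m'
      have h4 : (p' + 1) * p'.choose m' ≤ 4 * (m' + 1) * p'.choose m' :=
        Nat.mul_le_mul_right _ (by omega)
      have h5 : (p' + 1).choose (m' + 1) * (m' + 1) ≤ (4 * p'.choose m') * (m' + 1) := by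
        rw [← h3]
        calc _ ≤ _ := h4
          _ = _ := by ring
      exact Nat.le_of_mul_le_mul_right h5 (Nat.succ_pos _)
    have h2 := ih p' m' (by omega) (by omega)
    have e1 : p' + 1 - (t + 1) = p' - t := by omega
    have e2 : m' + 1 - (t + 1) = m' - t := by omega
    rw [e1, e2, pow_succ]
    calc _ ≤ 4 * p'.choose m' := h1
      _ ≤ 4 * (4 ^ t * (p' - t).choose (m' - t)) := Nat.mul_le_mul_left _ h2
      _ = _ := by ring

theorem card_super {α : Type*} [Fintype α] [DecidableEq α] (m : ℕ) (T : Finset α)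
    (hT : T.card ≤ m) :
    (Fintype.card α - T.card).choose (m - T.card) ≤
      ((powersetCard m (univ : Finset α)).filter (fun X => T ⊆ X)).card := by
  rw [← Finset.card_compl, ← Finset.card_powersetCard]
  refine Finset.card_le_card_of_injOn (fun Y => Y ∪ T) ?_ ?_
  · intro Y hY
    have hY' := Finset.mem_powersetCard.1 (Finset.mem_coe.1 hY)
    have hdis : Disjoint Y T := Finset.disjoint_left.2 fun x hx hxT =>
      (Finset.mem_compl.1 (hY'.1 hx)) hxT
    simp only [Finset.coe_filter, Set.mem_ofPred_eq, Finset.mem_powersetCard]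
    refine ⟨⟨Finset.subset_univ _, ?_⟩, Finset.subset_union_right⟩
    rw [Finset.card_union_of_disjoint hdis, hY'.2]
    omega
  · intro Y hY Z hZ h
    have hY' := Finset.mem_powersetCard.1 (Finset.mem_coe.1 hY)
    have hZ' := Finset.mem_powersetCard.1 (Finset.mem_coe.1 hZ)
    have e : ∀ Y : Finset α, Y ⊆ Tᶜ → (Y ∪ T) \ T = Y := by
      intro Y hY
      ext x
      simp only [Finset.mem_sdiff, Finset.mem_union]
      constructor
      · rintro ⟨h1 | h1, h2⟩
        · exact h1
        · exact absurd h1 h2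
      · intro hx
        exact ⟨Or.inl hx, Finset.mem_compl.1 (hY hx)⟩
    simp only at h
    rw [← e Y hY'.1, ← e Z hZ'.1, h]

/-- the number of small subsets -/
theorem card_small {α : Type*} [Fintype α] [DecidableEq α] (M : ℕ) :
    ((univ : Finset (Finset α)).filter (fun S => S.card ≤ M)).card ≤
      (Fintype.card α + 1) ^ M := by
  have h1 : (univ : Finset (Finset α)).filter (fun S => S.card ≤ M) ⊆
      (range (M + 1)).biUnion (fun j => powersetCard j (univ : Finset α)) := by
    intro S hS
    simp only [Finset.mem_filter, Finset.mem_univ, true_and] at hS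
    simp only [Finset.mem_biUnion, Finset.mem_range, Finset.mem_powersetCard]
    exact ⟨S.card, by omega, Finset.subset_univ _, rfl⟩
  refine (Finset.card_le_card h1).trans (Finset.card_biUnion_le.trans ?_)
  rw [add_pow]
  refine Finset.sum_le_sum fun j hj => ?_
  rw [Finset.card_powersetCard, Finset.card_univ, one_pow, mul_one]
  have h2 : 1 ≤ M.choose j := Nat.choose_pos (by simp only [Finset.mem_range] at hj; omega)
  calc (Fintype.card α).choose j ≤ (Fintype.card α) ^ j := Nat.choose_le_pow _ _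
    _ = (Fintype.card α) ^ j * 1 := (mul_one _).symm
    _ ≤ _ := Nat.mul_le_mul_left _ h2

variable {p : ℕ} [Fact p.Prime]

/-- the abscissas of the points of `S` on the line `y = a x + b` -/
def tr (S : Finset (ZMod p × ZMod p)) (l : ZMod p × ZMod p) : Finset (ZMod p) :=
  univ.filter (fun x => (x, l.1 * x + l.2) ∈ S)

theorem card_of_tr (D : ℕ) (S : Finset (ZMod p × ZMod p)) (h : ∀ l, (tr S l).card ≤ D) :
    S.card ≤ D * p := by
  have h1 : S ⊆ (univ : Finset (ZMod p)).biUnion
      (fun b => (tr S (0, b)).image (fun x => (x, b))) := by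
    rintro ⟨x, y⟩ hxy
    simp only [Finset.mem_biUnion, Finset.mem_univ, true_and, Finset.mem_image, tr,
      Finset.mem_filter]
    exact ⟨y, x, by simpa using hxy, rfl⟩
  calc S.card ≤ _ := Finset.card_le_card h1
    _ ≤ ∑ b : ZMod p, ((tr S (0, b)).image (fun x => (x, b))).card := Finset.card_biUnion_le
    _ ≤ ∑ b : ZMod p, D := Finset.sum_le_sum fun b _ => Finset.card_image_le.trans (h _)
    _ = D * p := by simp [ZMod.card, mul_comm]

theorem exists_choice (D m : ℕ) (hm : p + 3 * D ≤ 4 * m) (hmp : m ≤ p) (hDm : D ≤ m)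
    (hp : ((p : ℝ) ^ 2 + 1) ^ D * (1 - (1 / 4 : ℝ) ^ D) ^ p < 1) :
    ∃ w : ZMod p × ZMod p → Finset (ZMod p), (∀ l, (w l).card = m) ∧
      ∀ S : Finset (ZMod p × ZMod p), (∀ l, (tr S l).card ≤ D) → ∃ l, tr S l ⊆ w l := by
  classical
  by_contra hcon
  push Not at hcon
  have hp0 : 0 < p := (Fact.out : p.Prime).pos
  let N : ℕ := p.choose m
  have hN : 0 < N := Nat.choose_pos hmp
  let Om : Finset (ZMod p × ZMod p → Finset (ZMod p)) :=
    Fintype.piFinset (fun _ => powersetCard m univ)
  let SS : Finset (Finset (ZMod p × ZMod p)) := univ.filter (fun S => ∀ l, (tr S l).card ≤ D)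
  have hOm : Om ⊆ SS.biUnion (fun S => Fintype.piFinset
      (fun l => (powersetCard m univ).filter (fun X => ¬ tr S l ⊆ X))) := by
    intro w hw
    have hw' : ∀ l, (w l).card = m := fun l =>
      (Finset.mem_powersetCard.1 (Fintype.mem_piFinset.1 hw l)).2
    obtain ⟨S, hS, hSl⟩ := hcon w hw'
    refine Finset.mem_biUnion.2 ⟨S, by simp [SS, hS], ?_⟩
    rw [Fintype.mem_piFinset]
    intro l
    exact Finset.mem_filter.2 ⟨Fintype.mem_piFinset.1 hw l, hSl l⟩
  have hcardOm : (Om.card : ℝ) = (N : ℝ) ^ (p ^ 2) := by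
    simp only [Om, Fintype.card_piFinset, Finset.card_powersetCard, Finset.card_univ, ZMod.card,
      Finset.prod_const, Fintype.card_prod]
    push_cast
    rw [← pow_two]
  have hdel0 : (0 : ℝ) ≤ 1 - (1 / 4 : ℝ) ^ D := by
    have : (1 / 4 : ℝ) ^ D ≤ 1 := pow_le_one₀ (by norm_num) (by norm_num)
    linarith
  have hone : ∀ S ∈ SS, ∀ l, (((powersetCard m (univ : Finset (ZMod p))).filter
      (fun X => ¬ tr S l ⊆ X)).card : ℝ) ≤ N * (1 - (1 / 4 : ℝ) ^ D) := by
    intro S hS l
    have hS' : (tr S l).card ≤ D := (Finset.mem_filter.1 hS).2 l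
    have h1 := Finset.card_filter_add_card_filter_not (s := powersetCard m (univ : Finset (ZMod p)))
      (fun X => tr S l ⊆ X)
    rw [Finset.card_powersetCard, Finset.card_univ, ZMod.card] at h1
    have h2 := card_super m (tr S l) (by omega)
    rw [ZMod.card] at h2
    have h3 := choose_le (tr S l).card p m (by omega) hmp
    have h4 : (N : ℝ) * (1 / 4 : ℝ) ^ D ≤
        (((powersetCard m (univ : Finset (ZMod p))).filter (fun X => tr S l ⊆ X)).card : ℝ) := by
      have h5 : (N : ℝ) ≤ 4 ^ (tr S l).card *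
          (((powersetCard m (univ : Finset (ZMod p))).filter (fun X => tr S l ⊆ X)).card : ℝ) := by
        have : N ≤ 4 ^ (tr S l).card *
          ((powersetCard m (univ : Finset (ZMod p))).filter (fun X => tr S l ⊆ X)).card :=
          h3.trans (Nat.mul_le_mul_left _ h2)
        exact_mod_cast this
      have h6 : (4 : ℝ) ^ (tr S l).card ≤ 4 ^ D := pow_le_pow_right₀ (by norm_num) hS'
      have h7 : (N : ℝ) ≤ 4 ^ D *
          (((powersetCard m (univ : Finset (ZMod p))).filter (fun X => tr S l ⊆ X)).card : ℝ) :=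
        h5.trans (mul_le_mul_of_nonneg_right h6 (Nat.cast_nonneg _))
      rw [one_div, inv_pow, ← div_eq_mul_inv, div_le_iff₀ (by positivity)]
      linarith
    have h8 : (((powersetCard m (univ : Finset (ZMod p))).filter (fun X => tr S l ⊆ X)).card : ℝ) +
      (((powersetCard m (univ : Finset (ZMod p))).filter (fun X => ¬ tr S l ⊆ X)).card : ℝ) = N := by
      exact_mod_cast h1
    linarith
  have hprod : ∀ S ∈ SS, ((Fintype.piFinset (fun l => (powersetCard m (univ : Finset (ZMod p))).filter
      (fun X => ¬ tr S l ⊆ X))).card : ℝ) ≤ (N * (1 - (1 / 4 : ℝ) ^ D)) ^ (p ^ 2) := by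
    intro S hS
    rw [Fintype.card_piFinset]
    push_cast
    calc _ ≤ ∏ _l : ZMod p × ZMod p, ((N : ℝ) * (1 - (1 / 4 : ℝ) ^ D)) :=
          Finset.prod_le_prod (fun _ _ => Nat.cast_nonneg _) (fun l _ => hone S hS l)
      _ = _ := by
          rw [Finset.prod_const, Finset.card_univ, Fintype.card_prod, ZMod.card, ← pow_two]
  have hSS : (SS.card : ℝ) ≤ ((p : ℝ) ^ 2 + 1) ^ (D * p) := by
    have h1 : SS ⊆ (univ : Finset (Finset (ZMod p × ZMod p))).filter (fun S => S.card ≤ D * p) := by
      intro S hS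
      exact Finset.mem_filter.2 ⟨Finset.mem_univ _, card_of_tr D S (Finset.mem_filter.1 hS).2⟩
    have h2 := (Finset.card_le_card h1).trans (card_small (α := ZMod p × ZMod p) (D * p))
    rw [Fintype.card_prod, ZMod.card] at h2
    calc (SS.card : ℝ) ≤ ((p * p + 1) ^ (D * p) : ℕ) := by exact_mod_cast h2
      _ = _ := by push_cast; ring
  have hfin : (N : ℝ) ^ (p ^ 2) ≤ ((p : ℝ) ^ 2 + 1) ^ (D * p) *
      (N * (1 - (1 / 4 : ℝ) ^ D)) ^ (p ^ 2) := by
    rw [← hcardOm]
    calc (Om.card : ℝ) ≤ ((SS.biUnion (fun S => Fintype.piFinset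
            (fun l => (powersetCard m univ).filter (fun X => ¬ tr S l ⊆ X)))).card : ℝ) := by
          exact_mod_cast Finset.card_le_card hOm
      _ ≤ ∑ S ∈ SS, ((Fintype.piFinset (fun l => (powersetCard m (univ : Finset (ZMod p))).filter
            (fun X => ¬ tr S l ⊆ X))).card : ℝ) := by
          exact_mod_cast Finset.card_biUnion_le
      _ ≤ ∑ _S ∈ SS, (N * (1 - (1 / 4 : ℝ) ^ D)) ^ (p ^ 2) :=
          Finset.sum_le_sum fun S hS => hprod S hS
      _ = SS.card * (N * (1 - (1 / 4 : ℝ) ^ D)) ^ (p ^ 2) := by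
          rw [Finset.sum_const, nsmul_eq_mul]
      _ ≤ _ := mul_le_mul_of_nonneg_right hSS (by positivity)
  rw [mul_pow] at hfin
  have hNpos : (0 : ℝ) < (N : ℝ) ^ (p ^ 2) := by positivity
  have hlt : ((p : ℝ) ^ 2 + 1) ^ (D * p) * (1 - (1 / 4 : ℝ) ^ D) ^ (p ^ 2) < 1 := by
    rw [pow_mul, pow_two p, pow_mul, ← mul_pow]
    exact pow_lt_one₀ (by positivity) hp hp0.ne'
  nlinarith

end Pool.Agent.K3h69.BT
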